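import Pool.Agent.TFL.Euler

/-!
# Euler factors bound the torsion terms of the Bloch-Kato formula

`V` is a representation of the absolute Galois group of `ℚ` over the fraction field `K` of a
discrete valuation ring `O` over `ℤ_q`, `P` is the characteristic polynomial of a geometric Frobenius
element at a prime `p ≠ q`, with coefficients in the ring of integers of a number field `E` and with
all complex roots of absolute value `p^(w/2)`. Then, for every stable lattice `T` and every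
`t ≥ 1`, the value `P(p^t)` kills `H⁰(ℚ, T(t) ⊗ A)`, the value `P(p^(t-1))` kills
`H⁰(ℚ, T*(1 - t) ⊗ A)`, and both groups vanish if `w/2 + 1 < t ≤ w` and
`q > p^((w+1) dim V [E:ℚ])`.
-/

set_option autoImplicit false

universe u v w z

open Pool.Agent.TFL NumberField Polynomial in
theorem Pool.Agent.Variants.MP_78858f_nt.TorsionBound
    (q : ℕ) [Fact q.Prime]
    (O : Type u) [CommRing O] [IsDomain O] [IsDiscreteValuationRing O] [Algebra ℤ_[q] O]
    (K : Type v) [Field K] [Algebra O K] [IsFractionRing O K]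
    (V : Type w) [AddCommGroup V] [Module K V] [Module O V] [IsScalarTower O K V]
    [FiniteDimensional K V] (E : Type z) [Field E] [NumberField E] (ι : 𝓞 E →+* O)
    (ρ : GQ →* (V →ₗ[K] V)) (p : ℕ) (hp : p.Prime) (φ : GQ) (P : (𝓞 E)[X])
    (hφ : IsFrobenius q ι ρ p φ P) (wt : ℕ) (hP : P.Monic)
    (hw : ∀ τ : E →ₐ[ℚ] ℂ, ∀ α : ℂ,
      (P.map ((τ : E →+* ℂ).comp (algebraMap (𝓞 E) E))).IsRoot α → ‖α‖ ^ 2 = (p : ℝ) ^ wt)
    (T : Submodule O V) (hT : StableLattice ρ T) (t : ℕ) (ht : 1 ≤ t) :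
    (∀ v : V, IsInvariant q ρ t T v → ι (P.eval ((p : 𝓞 E) ^ t)) • v ∈ T) ∧
    (∀ f : T →ₗ[O] (K ⧸ LinearMap.range (Algebra.linearMap O K)), IsDualInvariant q ρ t T f →
      ∀ x : T, ι (P.eval ((p : 𝓞 E) ^ (t - 1))) • f x = 0) ∧
    (wt < 2 * (t - 1) → t ≤ wt →
      p ^ ((wt + 1) * Module.finrank K V * Module.finrank ℚ E) < q →
      NoInvariants q ρ t T ∧ NoDualInvariants q ρ t T) := by
  refine ⟨fun v hv => eval_kills hφ T hT t v hv, ?_, fun h1 h2 h3 =>
    torsion_bound ι ρ hp φ P hφ wt hP hw h3 T hT t h1 h2⟩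
  intro f hf x
  obtain ⟨s, rfl⟩ : ∃ s, t = s + 1 := ⟨t - 1, by omega⟩
  exact eval_kills_dual hφ T hT s f hf x
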